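import Mathlib
import Pool.Agent.H96.TSC.Tv

/-!
# MP_d1aba8_pr, Q1: the relaxation-time condition does not give typical-start cutoff

The chain: words of length `N` over the alphabet `ℤ/M`; every letter is refreshed at rate `1`, and
the whole word is refreshed at the small rate `r = 2 / log N`.  It is a symmetric random walk on a
finite abelian group.  Up to time about `log N` some letter of the start has survived, so the
distance to equilibrium is about the probability `exp (-r t)` that the whole word has not been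
refreshed: it crosses the level `1/4` smoothly, at time `(log 4 / 2) log N`, while the relaxation
time is `1 / (1 + r)`.
-/

set_option autoImplicit false
set_option linter.unusedSectionVars false

open Filter Topology Finset

namespace Pool.Agent.Results.MP_d1aba8_pr.TypicalStart

section
variable {S : Type} [Fintype S] [DecidableEq S]

/-- `Q` is the generator of a continuous-time Markov chain on the finite set `S`. -/
def IsGenerator (Q : Matrix S S ℝ) : Prop :=
  (∀ x y, x ≠ y → 0 ≤ Q x y) ∧ ∀ x, ∑ y, Q x y = 0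

/-- The chain is irreducible: any state leads to any other one through transitions of positive
rate. -/
def IsIrreducible (Q : Matrix S S ℝ) : Prop :=
  ∀ x y, Relation.ReflTransGen (fun a b => 0 < Q a b) x y

/-- `π` is a stationary probability distribution. -/
def IsStationary (Q : Matrix S S ℝ) (π : S → ℝ) : Prop :=
  (∀ x, 0 ≤ π x) ∧ ∑ x, π x = 1 ∧ ∀ y, ∑ x, π x * Q x y = 0

/-- The law at time `t` of the chain started at `x`, a row of `exp (t Q)`. -/
noncomputable def law (Q : Matrix S S ℝ) (t : ℝ) (x : S) : S → ℝ :=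
  NormedSpace.exp (t • Q) x

/-- Total variation distance, `sup_A |μ(A) - ν(A)|`. -/
noncomputable def tv (μ ν : S → ℝ) : ℝ :=
  ⨆ A : Finset S, |∑ y ∈ A, μ y - ∑ y ∈ A, ν y|

/-- `τ_x = inf {t ≥ 0 : ‖P_x(X_t ∈ ·) - π‖ ≤ 1/4}`. -/
noncomputable def tau (Q : Matrix S S ℝ) (π : S → ℝ) (x : S) : ℝ :=
  sInf {t : ℝ | 0 ≤ t ∧ tv (law Q t x) π ≤ 1 / 4}

/-- The `π`-measure of the set of the `x` with `p x`. -/
noncomputable def mass (π : S → ℝ) (p : S → Prop) : ℝ := ∑ x, π x * {y | p y}.indicator 1 x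

/-- `m` is a median of `τ_x` when `x` is drawn from `π`. -/
def IsMedian (Q : Matrix S S ℝ) (π : S → ℝ) (m : ℝ) : Prop :=
  1 / 2 ≤ mass π (fun x => tau Q π x ≤ m) ∧ 1 / 2 ≤ mass π (fun x => m ≤ tau Q π x)

/-- `g` is the spectral gap: the smallest real part of a nonzero eigenvalue of `-Q`. -/
def IsGap (Q : Matrix S S ℝ) (g : ℝ) : Prop :=
  IsLeast {a : ℝ | ∃ (z : ℂ) (f : S → ℂ), z ≠ 0 ∧ f ≠ 0 ∧
    (-(Q.map fun a : ℝ => (a : ℂ))).mulVec f = z • f ∧ a = z.re} g

/-- `Q` generates an irreducible chain with stationary distribution `π`, `τ` is a median of `τ_x`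
under `π`, and `g` is the spectral gap (the relaxation time is `1 / g`). -/
def IsChain (Q : Matrix S S ℝ) (π : S → ℝ) (τ g : ℝ) : Prop :=
  IsGenerator Q ∧ IsIrreducible Q ∧ IsStationary Q π ∧ IsMedian Q π τ ∧ IsGap Q g

end

/-- The assertion of Q1: for all sequences of finite irreducible continuous-time chains with
`τ / τ_2 → ∞` and all `0 < ε < 1`,
`π {x : ‖P_x(X_{(1-ε)τ} ∈ ·) - π‖ > 1 - ε} → 1` and `π {x : ‖P_x(X_{(1+ε)τ} ∈ ·) - π‖ < ε} → 1`. -/
def TypicalStartCutoff : Prop :=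
  ∀ (S : ℕ → Type) [∀ n, Fintype (S n)] [∀ n, DecidableEq (S n)]
    (Q : ∀ n, Matrix (S n) (S n) ℝ) (π : ∀ n, S n → ℝ) (τ g : ℕ → ℝ), (∀ n, IsChain (Q n) (π n) (τ n) (g n)) →
    Tendsto (fun n => τ n / (1 / g n)) atTop atTop → ∀ ε : ℝ, 0 < ε → ε < 1 →
      Tendsto (fun n => mass (π n) fun x => 1 - ε < tv (law (Q n) ((1 - ε) * τ n) x) (π n))
        atTop (𝓝 1) ∧
      Tendsto (fun n => mass (π n) fun x => tv (law (Q n) ((1 + ε) * τ n) x) (π n) < ε)
        atTop (𝓝 1)

/-- A sequence of chains which are symmetric random walks on finite abelian groups (hence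
reversible, with uniform stationary distribution and all starting states equivalent), with
`τ / τ_2 → ∞`, for which both conclusions of Q1 fail as badly as possible for every small `ε`:
eventually no starting state `x` satisfies either of the two inequalities. -/
def StrongCounterexample : Prop :=
  ∃ (S : ℕ → Type) (_ : ∀ n, AddCommGroup (S n)) (_ : ∀ n, Fintype (S n))
    (_ : ∀ n, DecidableEq (S n)) (Q : ∀ n, Matrix (S n) (S n) ℝ) (π : ∀ n, S n → ℝ) (τ g : ℕ → ℝ),
    (∀ n, IsChain (Q n) (π n) (τ n) (g n)) ∧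
    (∀ n x y, Q n x y = Q n y x) ∧ (∀ n x y z, Q n (x + z) (y + z) = Q n x y) ∧
    Tendsto (fun n => τ n / (1 / g n)) atTop atTop ∧
    ∀ ε : ℝ, 0 < ε → ε ≤ 1 / 8 → ∀ᶠ n in atTop, ∀ x : S n,
      tv (law (Q n) ((1 - ε) * τ n) x) (π n) < 1 - ε ∧
      ε < tv (law (Q n) ((1 + ε) * τ n) x) (π n)

open Pool.Agent.H96.TSC in
lemma not_of_strong (h : StrongCounterexample) : ¬ TypicalStartCutoff := by
  intro hT
  obtain ⟨S, _, _, _, Q, π, τ, g, hc, -, -, ht, he⟩ := h
  have h1 := (hT S Q π τ g hc ht (1 / 8) (by norm_num) (by norm_num)).1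
  have h2 : ∀ᶠ n in atTop, (mass (π n) fun x =>
      1 - 1 / 8 < tv (law (Q n) ((1 - 1 / 8) * τ n) x) (π n)) = 0 := by
    filter_upwards [he (1 / 8) (by norm_num) le_rfl] with n hn
    unfold mass
    refine sum_eq_zero fun x _ => ?_
    rw [Set.indicator_of_notMem, mul_zero]
    exact not_lt.mpr (hn x).1.le
  have h3 := (tendsto_congr' h2).mp h1
  exact zero_ne_one (tendsto_nhds_unique tendsto_const_nhds h3)

section
open Pool.Agent.H96.TSC

variable {N M : ℕ} [NeZero M]

lemma gen_row (r : ℝ) (x : St N M) : ∑ y, gen N M r x y = 0 := by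
  have h := gen_mul r (fun _ : St N M => (1 : ℝ)) x
  simp only [mul_one] at h
  rw [h, sum_const, sum_const, sum_const, card_univ, card_univ, card_univ, Fintype.card_fin,
    ZMod.card, card_St, nsmul_eq_mul, nsmul_eq_mul, nsmul_eq_mul]
  have hM : (M : ℝ) ≠ 0 := (Mpos (M := M)).ne'
  push_cast
  field_simp
  ring

lemma upd_iff (x y : St N M) (j : Fin N) :
    (∑ a : ZMod M, if Function.update x j a = y then (1 : ℝ) else 0) =
      if ∀ k, k ≠ j → x k = y k then 1 else 0 := by
  have e : ∀ a, (Function.update x j a = y) ↔ (a = y j ∧ ∀ k, k ≠ j → x k = y k) := by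
    intro a
    constructor
    · intro h
      subst h
      refine ⟨by simp, fun k hk => by rw [Function.update_of_ne hk]⟩
    · rintro ⟨h1, h2⟩
      funext k
      by_cases hk : k = j
      · subst hk; simpa using h1
      · rw [Function.update_of_ne hk]; exact h2 k hk
  simp_rw [e]
  by_cases h : ∀ k, k ≠ j → x k = y k
  · rw [if_pos h]
    simp_rw [and_iff_left h]
    rw [sum_ite_eq' univ (y j), if_pos (mem_univ _)]
  · rw [if_neg h]
    refine sum_eq_zero fun a _ => if_neg fun h2 => h h2.2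

lemma gen_eq (r : ℝ) (x y : St N M) :
    gen N M r x y = (∑ j : Fin N, (1 / (M : ℝ)) * (if ∀ k, k ≠ j → x k = y k then 1 else 0)) -
    (if x = y then (N : ℝ) else 0) + r * (1 / (M : ℝ) ^ N - if x = y then 1 else 0) := by
  unfold gen
  congr 2
  refine sum_congr rfl fun j _ => ?_
  rw [← mul_sum, upd_iff]

lemma gen_symm (r : ℝ) (x y : St N M) : gen N M r x y = gen N M r y x := by
  rw [gen_eq, gen_eq]
  simp only [eq_comm]

lemma gen_add (r : ℝ) (x y z : St N M) : gen N M r (x + z) (y + z) = gen N M r x y := by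
  rw [gen_eq, gen_eq]
  simp only [Pi.add_apply, add_left_inj]

lemma gen_off (r : ℝ) (hr : 0 < r) (x y : St N M) (h : x ≠ y) : 0 < gen N M r x y := by
  rw [gen_eq, if_neg h, if_neg h]
  have hM : (0 : ℝ) < M := Mpos
  have h1 : 0 ≤ ∑ j : Fin N, (1 / (M : ℝ)) * (if ∀ k, k ≠ j → x k = y k then (1 : ℝ) else 0) := by
    refine sum_nonneg fun j _ => ?_
    split_ifs <;> positivity
  have h2 : 0 < r * (1 / (M : ℝ) ^ N - 0) := by
    rw [sub_zero]
    positivity
  linarith

lemma unif_stat (r : ℝ) : IsStationary (gen N M r) (unif N M) := by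
  have hM : (0 : ℝ) < M := Mpos
  refine ⟨fun x => by unfold unif; positivity, ?_, fun y => ?_⟩
  · unfold unif
    rw [sum_const, card_univ, card_St, nsmul_eq_mul]
    push_cast
    field_simp
  · unfold unif
    rw [← mul_sum]
    have : ∑ x, gen N M r x y = ∑ x, gen N M r y x := sum_congr rfl fun x _ => gen_symm r x y
    rw [this, gen_row, mul_zero]

lemma law_eq (r t : ℝ) (x : St N M) : law (gen N M r) t x = ker N M r t x := by
  unfold law
  rw [← exp_gen]

lemma tv_eq (μ ν : St N M → ℝ) : tv μ ν = Pool.Agent.H96.TSC.tv μ ν := rfl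

lemma tau_const (r : ℝ) (x : St N M) :
    tau (gen N M r) (unif N M) x = tau (gen N M r) (unif N M) 0 := by
  unfold tau
  congr 1
  ext t
  show (0 ≤ t ∧ tv (law (gen N M r) t x) (unif N M) ≤ 1 / 4) ↔
    (0 ≤ t ∧ tv (law (gen N M r) t 0) (unif N M) ≤ 1 / 4)
  rw [law_eq, law_eq, tv_eq, tv_eq, tv_const r t x]

lemma median (r : ℝ) : IsMedian (gen N M r) (unif N M) (tau (gen N M r) (unif N M) 0) := by
  have h := (unif_stat (N := N) (M := M) r).2.1
  have h1 : ∀ p : St N M → Prop, (∀ x, p x) → mass (unif N M) p = 1 := by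
    intro p hp
    unfold mass
    rw [← h]
    refine sum_congr rfl fun x _ => ?_
    have hx : x ∈ {y | p y} := hp x
    rw [Set.indicator_of_mem hx, Pi.one_apply, mul_one]
  constructor
  · rw [h1 _ fun x => (tau_const r x).le]; norm_num
  · rw [h1 _ fun x => (tau_const r x).ge]; norm_num

lemma gap (hN : 0 < N) (hM : 2 ≤ M) (r : ℝ) (hr : 0 < r) : IsGap (gen N M r) (1 + r) := by
  constructor
  · obtain ⟨f, hf, h⟩ := eigenvalue_exists hN hM r
    refine ⟨((1 + r : ℝ) : ℂ), f, ?_, hf, h, by simp⟩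
    have : (1 + r : ℝ) ≠ 0 := by positivity
    exact_mod_cast this
  · rintro a ⟨z, f, hz, hf, h, rfl⟩
    exact eigenvalue_re hz hf h

lemma isChain (hN : 0 < N) (hM : 2 ≤ M) (r : ℝ) (hr : 0 < r) :
    IsChain (gen N M r) (unif N M) (tau (gen N M r) (unif N M) 0) (1 + r) := by
  refine ⟨⟨fun x y h => (gen_off r hr x y h).le, gen_row r⟩, fun x y => ?_, unif_stat r, median r,
    gap hN hM r hr⟩
  by_cases h : x = y
  · rw [h]
  · exact Relation.ReflTransGen.single (gen_off r hr x y h)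

/-- the lower bound of the distance for the base chain -/
noncomputable def bb (N M : ℕ) (t : ℝ) : ℝ :=
  (1 - 1 / (M : ℝ)) ^ N * (1 - (1 - Real.exp (-t)) ^ N)

lemma bb_anti (hM : 1 ≤ M) {s t : ℝ} (hs : 0 ≤ s) (h : s ≤ t) : bb N M t ≤ bb N M s := by
  unfold bb
  have h1 : Real.exp (-t) ≤ Real.exp (-s) := Real.exp_le_exp.mpr (by linarith)
  have h2 : Real.exp (-s) ≤ 1 := Real.exp_le_one_iff.mpr (by linarith)
  have h3 : (1 : ℝ) / M ≤ 1 := by
    rw [div_le_one (by exact_mod_cast hM)]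
    exact_mod_cast hM
  apply mul_le_mul_of_nonneg_left _ (pow_nonneg (by linarith) _)
  have := pow_le_pow_left₀ (a := 1 - Real.exp (-s)) (b := 1 - Real.exp (-t)) (by linarith)
    (by linarith) N
  linarith

/-- All estimates for one chain: `T = log N`, `r = 2 / T`. -/
lemma estimates (T r : ℝ) (hT : 0 < T) (hr : r = 2 / T) (hb : 19 / 20 ≤ bb N M (4 / 5 * T)) :
    T / 2 ≤ tau (gen N M r) (unif N M) 0 ∧ tau (gen N M r) (unif N M) 0 ≤ 7 / 10 * T := by
  have hM : 1 ≤ M := NeZero.pos M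
  have hrT : ∀ c : ℝ, r * (c * T) = 2 * c := by
    intro c
    rw [hr]
    field_simp
  have hset : ∀ t, 0 ≤ t ∧ tv (law (gen N M r) t 0) (unif N M) ≤ 1 / 4 → T / 2 ≤ t := by
    rintro t ⟨h0, h1⟩
    by_contra hcon
    push Not at hcon
    rw [law_eq, tv_eq] at h1
    have h2 := tv_ge (N := N) (M := M) r h0 0
    have h3 : 19 / 20 ≤ bb N M t := hb.trans (bb_anti hM h0 (by linarith))
    have h4 : Real.exp (-1) ≤ Real.exp (-(r * t)) := by
      apply Real.exp_le_exp.mpr
      have : r * t ≤ r * (1 / 2 * T) := by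
        apply mul_le_mul_of_nonneg_left (by linarith)
        rw [hr]; positivity
      rw [hrT] at this
      linarith
    have h5 : Real.exp (-1) * (19 / 20) ≤ Real.exp (-(r * t)) * bb N M t := by
      apply mul_le_mul h4 h3 (by norm_num) (Real.exp_pos _).le
    have h6 : 1 / 4 < Real.exp (-1) * (19 / 20) := by
      have := Real.exp_one_lt_d9
      rw [Real.exp_neg]
      have h7 : 0 < Real.exp 1 := Real.exp_pos 1
      rw [← div_eq_inv_mul, lt_div_iff₀ h7]
      linarith
    unfold bb at h5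
    linarith
  have hmem : (7 / 10 * T) ∈ {t : ℝ | 0 ≤ t ∧ tv (law (gen N M r) t 0) (unif N M) ≤ 1 / 4} := by
    refine ⟨by positivity, ?_⟩
    rw [law_eq, tv_eq]
    refine (tv_le r (by positivity) 0).trans ?_
    rw [hrT, Real.exp_neg]
    have h1 : (4 : ℝ) ≤ Real.exp (2 * (7 / 10)) := by
      have h2 := Real.sum_le_exp_of_nonneg (x := 2 * (7 / 10)) (by norm_num) 6
      refine le_trans ?_ h2
      norm_num [Finset.sum_range_succ, Nat.factorial]
    rw [inv_le_comm₀ (Real.exp_pos _) (by norm_num)]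
    linarith
  constructor
  · exact le_csInf ⟨_, hmem⟩ fun t ht => hset t ht
  · exact csInf_le ⟨0, fun t ht => ht.1⟩ hmem

lemma conclusion (T r : ℝ) (hT : 0 < T) (hr : r = 2 / T) (hb : 19 / 20 ≤ bb N M (4 / 5 * T))
    (ε : ℝ) (hε : 0 < ε) (hε8 : ε ≤ 1 / 8) (x : St N M) :
    tv (law (gen N M r) ((1 - ε) * tau (gen N M r) (unif N M) 0) x) (unif N M) < 1 - ε ∧
    ε < tv (law (gen N M r) ((1 + ε) * tau (gen N M r) (unif N M) 0) x) (unif N M) := by
  obtain ⟨h1, h2⟩ := estimates (N := N) (M := M) T r hT hr hb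
  set τ := tau (gen N M r) (unif N M) 0 with hτ
  have hM : 1 ≤ M := NeZero.pos M
  have hr0 : 0 < r := by rw [hr]; positivity
  have hrT : ∀ c : ℝ, r * (c * T) = 2 * c := by
    intro c
    rw [hr]
    field_simp
  rw [law_eq, law_eq, tv_eq, tv_eq]
  constructor
  · refine (tv_le r (mul_nonneg (by linarith) (by linarith)) x).trans_lt ?_
    have h3 : 7 / 16 * T ≤ (1 - ε) * τ := by nlinarith
    have h4 : 2 * (7 / 16) ≤ r * ((1 - ε) * τ) := by
      rw [← hrT]
      exact mul_le_mul_of_nonneg_left h3 hr0.le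
    have h5 : Real.exp (-(r * ((1 - ε) * τ))) ≤ Real.exp (-(7 / 8)) :=
      Real.exp_le_exp.mpr (by linarith)
    have h6 : Real.exp (-(7 / 8 : ℝ)) < 7 / 8 := by
      rw [Real.exp_neg, inv_lt_comm₀ (Real.exp_pos _) (by norm_num)]
      have := Real.add_one_lt_exp (x := (7 / 8 : ℝ)) (by norm_num)
      linarith
    linarith
  · refine lt_of_lt_of_le ?_ (tv_ge r (mul_nonneg (by linarith) (by linarith)) x)
    have h3 : (1 + ε) * τ ≤ 4 / 5 * T := by nlinarith
    have h4 : r * ((1 + ε) * τ) ≤ 2 * (4 / 5) := by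
      rw [← hrT]
      exact mul_le_mul_of_nonneg_left h3 hr0.le
    have h5 : Real.exp (-2) ≤ Real.exp (-(r * ((1 + ε) * τ))) :=
      Real.exp_le_exp.mpr (by linarith)
    have h6 : 19 / 20 ≤ bb N M ((1 + ε) * τ) :=
      hb.trans (bb_anti hM (mul_nonneg (by linarith) (by linarith)) h3)
    have h7 : Real.exp (-2) * (19 / 20) ≤
        Real.exp (-(r * ((1 + ε) * τ))) * bb N M ((1 + ε) * τ) :=
      mul_le_mul h5 h6 (by norm_num) (Real.exp_pos _).le
    have h8 : 1 / 8 < Real.exp (-2) * (19 / 20) := by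
      have h9 := Real.exp_one_lt_d9
      have h10 : Real.exp 2 = Real.exp 1 * Real.exp 1 := by
        rw [← Real.exp_add]; norm_num
      have h11 : 0 < Real.exp 1 := Real.exp_pos 1
      rw [Real.exp_neg, ← div_eq_inv_mul, lt_div_iff₀ (Real.exp_pos _), h10]
      nlinarith
    unfold bb at h7
    linarith

end

lemma bb_lower (n : ℕ) :
    (1 - 1 / ((n : ℝ) + 2)) * (1 - Real.exp (-(((n : ℝ) + 2) ^ (1 / 5 : ℝ)))) ≤
      bb (n + 2) ((n + 2) ^ 2) (4 / 5 * Real.log ((n : ℝ) + 2)) := by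
  have hpos : (0 : ℝ) < (n : ℝ) + 2 := by positivity
  unfold bb
  have h1 : 1 - 1 / ((n : ℝ) + 2) ≤ (1 - 1 / (((n + 2) ^ 2 : ℕ) : ℝ)) ^ (n + 2) := by
    have h2 := one_add_mul_le_pow (a := -(1 / (((n + 2) ^ 2 : ℕ) : ℝ))) (by
      have : (1 : ℝ) / (((n + 2) ^ 2 : ℕ) : ℝ) ≤ 1 := by
        rw [div_le_one (by positivity)]
        exact_mod_cast Nat.one_le_pow _ _ (by omega)
      linarith) (n + 2)
    rw [← sub_eq_add_neg] at h2
    refine le_trans (le_of_eq ?_) h2
    push_cast
    field_simp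
    ring
  have h3 : (1 - Real.exp (-(4 / 5 * Real.log ((n : ℝ) + 2)))) ^ (n + 2) ≤
      Real.exp (-(((n : ℝ) + 2) ^ (1 / 5 : ℝ))) := by
    have h4 : Real.exp (-(4 / 5 * Real.log ((n : ℝ) + 2))) = ((n : ℝ) + 2) ^ (-(4 / 5) : ℝ) := by
      rw [Real.rpow_def_of_pos hpos]
      congr 1
      ring
    have h5 : 0 ≤ 1 - ((n : ℝ) + 2) ^ (-(4 / 5) : ℝ) := by
      have := Real.rpow_le_one_of_one_le_of_nonpos (x := (n : ℝ) + 2) (z := -(4 / 5))
        (by linarith [(Nat.cast_nonneg n : (0 : ℝ) ≤ n)]) (by norm_num)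
      linarith
    rw [h4]
    have h6 : 1 - ((n : ℝ) + 2) ^ (-(4 / 5) : ℝ) ≤
        Real.exp (-(((n : ℝ) + 2) ^ (-(4 / 5) : ℝ))) := by
      have := Real.add_one_le_exp (-(((n : ℝ) + 2) ^ (-(4 / 5) : ℝ)))
      linarith
    refine (pow_le_pow_left₀ h5 h6 (n + 2)).trans (le_of_eq ?_)
    rw [← Real.exp_nat_mul]
    congr 1
    push_cast
    rw [mul_neg]
    congr 1
    have h7 : ((n : ℝ) + 2) * ((n : ℝ) + 2) ^ (-(4 / 5) : ℝ) =
        ((n : ℝ) + 2) ^ (1 : ℝ) * ((n : ℝ) + 2) ^ (-(4 / 5) : ℝ) := by rw [Real.rpow_one]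
    rw [h7, ← Real.rpow_add hpos]
    norm_num
  have h8 : Real.exp (-(((n : ℝ) + 2) ^ (1 / 5 : ℝ))) ≤ 1 := by
    rw [Real.exp_le_one_iff]
    have : 0 ≤ ((n : ℝ) + 2) ^ (1 / 5 : ℝ) := Real.rpow_nonneg hpos.le _
    linarith
  have h9 : 0 ≤ 1 - 1 / ((n : ℝ) + 2) := by
    rw [sub_nonneg, div_le_one hpos]
    linarith [(Nat.cast_nonneg n : (0 : ℝ) ≤ n)]
  exact mul_le_mul h1 (by linarith) (by linarith) (h9.trans h1)

lemma bb_eventually : ∀ᶠ n : ℕ in atTop,
    19 / 20 ≤ bb (n + 2) ((n + 2) ^ 2) (4 / 5 * Real.log ((n : ℝ) + 2)) := by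
  have h0 : Tendsto (fun n : ℕ => (n : ℝ) + 2) atTop atTop :=
    tendsto_atTop_add_const_right _ _ tendsto_natCast_atTop_atTop
  have h1 : Tendsto (fun n : ℕ => (1 - 1 / ((n : ℝ) + 2)) *
      (1 - Real.exp (-(((n : ℝ) + 2) ^ (1 / 5 : ℝ))))) atTop (𝓝 ((1 - 0) * (1 - 0))) := by
    apply Tendsto.mul
    · apply Tendsto.const_sub
      simp_rw [one_div]
      exact tendsto_inv_atTop_zero.comp h0
    · apply Tendsto.const_sub
      have h2 : Tendsto (fun n : ℕ => ((n : ℝ) + 2) ^ (1 / 5 : ℝ)) atTop atTop :=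
        (tendsto_rpow_atTop (by norm_num)).comp h0
      exact Real.tendsto_exp_neg_atTop_nhds_zero.comp h2
  have h3 : (19 / 20 : ℝ) < (1 - 0) * (1 - 0) := by norm_num
  filter_upwards [h1.eventually (lt_mem_nhds h3)] with n hn
  exact hn.le.trans (bb_lower n)

open Pool.Agent.H96.TSC in
theorem strong : StrongCounterexample := by
  have hne : ∀ n : ℕ, NeZero ((n + 2) ^ 2) := fun n => ⟨by positivity⟩
  obtain ⟨n0, hn0⟩ := eventually_atTop.mp bb_eventually
  set T : ℕ → ℝ := fun n => Real.log ((n : ℝ) + 2) with hTdef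
  have hT : ∀ n, 0 < T n := fun n =>
    Real.log_pos (by linarith [(Nat.cast_nonneg n : (0 : ℝ) ≤ n)])
  refine ⟨fun n => St (n + 2) ((n + 2) ^ 2), fun n => inferInstance, fun n => inferInstance,
    fun n => inferInstance, fun n => gen (n + 2) ((n + 2) ^ 2) (2 / T n), fun n => unif (n + 2) ((n + 2) ^ 2),
    fun n => tau (gen (n + 2) ((n + 2) ^ 2) (2 / T n)) (unif (n + 2) ((n + 2) ^ 2)) 0,
    fun n => 1 + 2 / T n, fun n => ?_, fun n x y => gen_symm _ x y, fun n x y z => gen_add _ x y z,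
    ?_, ?_⟩
  · exact isChain (by omega) (by nlinarith [Nat.zero_le n]) _ (div_pos two_pos (hT n))
  · have h0 : Tendsto (fun n : ℕ => (n : ℝ) + 2) atTop atTop :=
      tendsto_atTop_add_const_right _ _ tendsto_natCast_atTop_atTop
    have hTt : Tendsto T atTop atTop := Real.tendsto_log_atTop.comp h0
    have hTt2 : Tendsto (fun n => T n / 2) atTop atTop := hTt.atTop_div_const (by norm_num)
    refine tendsto_atTop_mono' atTop ?_ hTt2
    filter_upwards [eventually_ge_atTop n0] with n hn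
    have h1 := (estimates (N := n + 2) (M := (n + 2) ^ 2) (T n) _ (hT n) rfl (hn0 n hn)).1
    have h2 : (1 : ℝ) ≤ 1 + 2 / T n := by
      have : 0 < 2 / T n := div_pos two_pos (hT n)
      linarith
    rw [div_div_eq_mul_div, div_one]
    have h3 : 0 ≤ T n / 2 := by have := hT n; positivity
    nlinarith
  · intro ε hε hε8
    filter_upwards [eventually_ge_atTop n0] with n hn x
    exact conclusion (N := n + 2) (M := (n + 2) ^ 2) (T n) _ (hT n) rfl (hn0 n hn) ε hε hε8 x

/-- **Negative answer to Q1**, even for symmetric random walks on finite abelian groups, and with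
both conclusions failing for every starting state. -/
theorem result : ¬ TypicalStartCutoff ∧ StrongCounterexample :=
  ⟨not_of_strong strong, strong⟩

end Pool.Agent.Results.MP_d1aba8_pr.TypicalStart
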